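import Pool.Agent.E8helper14.PA.Fin

/-!
# Almost all subgroups of the Mordell-Weil group of a simple abelian variety have a `p`-adic closure of
the expected rank

Let `A` be a simple abelian variety over `ℚ` of dimension `n`, `D = End⁰(A)` its endomorphism algebra
over `ℚ`, `F` a commutative subfield of `D`, `f = [F : ℚ]`, and `p` any prime number. The question is
whether the closure in `A(ℚ_p)` of a subgroup of `A(ℚ)` of rank `m ≤ n` has the `ℤ_p`-rank `m`.

**Theorem.** Let `e_1, …, e_N ∈ A(ℚ)` be independent and `s = dim_F (D ⟨e_1, …, e_N⟩)`.

1. Let `L` be any subgroup of `A(ℚ)` and `r` the `ℤ_p`-rank of its closure. For all but at most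
`(2 H + 1) ^ (r s)` of the `(2 H + 1) ^ N` points `x = ∑ k_j e_j`, `|k_j| ≤ H`, and all torsion points
`t`, the closure of `L + ℤ (x + t)` has the `ℤ_p`-rank `r + 1`.
2. For all but at most `m (2 H + 1) ^ ((m - 1) (N + s))` of the `(2 H + 1) ^ (m N)` tuples of points
`x_i = ∑_j k_ij e_j`, `|k_ij| ≤ H`, `i = 1, …, m`, and for all torsion points `t_i`, the closure of the
group generated by the points `x_i + t_i` is isomorphic to `ℤ_p ^ m` modulo finite torsion.
3. If the `e_j` are a basis of `A(ℚ)` modulo torsion (or generate a subgroup with torsion quotient) then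
`N = f s`, and for `m ≤ f` the proportion of the tuples for which the conclusion of 2 fails is at most
`m (2 H + 1) ^ (- s (f + 1 - m))`. So Q1 has the answer yes for almost all subgroups `L` with
`m ≤ [F : ℚ]` generators.

If `A` is of `GL_2`-type (there is a subfield `F` of degree `f = n`; for example all simple quotients of
the Jacobians `J_0(N)`, and then `D = F`) this is the case for all `m ≤ n`, that is for all `m` that
occur in Q1: for such `A`, with `A(ℚ)` infinite, the answer is yes for almost all `L`, for every prime
`p`, whatever the rank of `A(ℚ)` is. (If `dim_F (A(ℚ) ⊗ ℚ)` is at least two, Q1 is not known for all `L`: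
the known lower bounds for the rank of the closure are about `m / 3` (Waldschmidt), and
`m / dim_F (D L)`, `EndomorphismLinesH40`.)

The proof: by `EndomorphismLinesH40` the points of `⟨e_1, …, e_N⟩` whose logarithms lie in a subspace `W`
of `Lie A ⊗ ℚ_p` of dimension `r` form a group of rank at most `r s`, and a rational subspace of
dimension `d` contains at most `(2 H + 1) ^ d` of the points of the box. The data
`SimpleAbelianVariety p n` (`Pool.Agent.E8helper40.PC.Defs`) are the same as there; they contain the
p-adic analytic subgroup theorem for the powers of `A`.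
-/

set_option autoImplicit false

namespace Pool.Agent.Results.MP_52423f_nt.AlmostAllTuplesH14

open Module Pool.Agent.E8helper40.PC Pool.Agent.E8helper14.PA

/-- **Almost all tuples of rational points.** Let `F` be a commutative subfield of `End⁰(A)`,
`e_1, …, e_N ∈ A(ℚ)` independent and `s = dim_F (D ⟨e_1, …, e_N⟩)`.
1. For every subgroup `L` with closure of `ℤ_p`-rank `r` at most `(2 H + 1) ^ (r s)` of the points
`x = ∑ k_j e_j`, `|k_j| ≤ H`, have the property that for some torsion point `t` the closure of
`L + ℤ (x + t)` does not have the `ℤ_p`-rank `r + 1`.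
2. At most `m (2 H + 1) ^ ((m - 1) (N + s))` of the `m × N` matrices of integers `|k_ij| ≤ H` do not
give a good tuple.
3. If the `e_j` generate `A(ℚ)` up to a torsion quotient then `N = [F : ℚ] s`, and for `m ≤ [F : ℚ]` the
number of these matrices is at most `m (2 H + 1) ^ (- s ([F : ℚ] + 1 - m))` times the number of all
matrices. -/
theorem result {p : ℕ} [Fact p.Prime] {n : ℕ} (A : SimpleAbelianVariety p n) (F : Subfield A.End)
    (hF : Commutative A F) {N : ℕ} (e : Fin N → A.Pts) (he : Independent A e) :
    ExtensionBound A F e ∧ TupleBound A F e ∧ (Generates A e → ProportionBound A F e) := by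
  refine ⟨fun L r H hr => badExtensions_le A F hF e he L r H hr, failures_le A F hF e he,
    fun hg => ?_⟩
  obtain ⟨s, hs, h⟩ := failures_generates A F hF e he hg
  refine ⟨s, hs, fun m H hm => ?_⟩
  rw [card_box]
  exact h m H hm

end Pool.Agent.Results.MP_52423f_nt.AlmostAllTuplesH14
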