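import Pool.Agent.E8helper40.PC.Main

/-!
# The p-adic closure of a subgroup of a simple abelian variety and its endomorphisms

Let `A` be a simple abelian variety over `ℚ` of dimension `n`, `D = End⁰(A)` its endomorphism algebra
over `ℚ` (a division algebra), `p` a prime number and `L` a finitely generated subgroup of `A(ℚ)`, of
rank `m`. The question is whether the `ℤ_p`-rank `r` of the closure of `L` in `A(ℚ_p)` is equal to `m`
if `m ≤ n`. Let `D L` be the `D`-subspace of `A(ℚ) ⊗ ℚ` spanned by `L`, and `F` a subfield of `D`.

**Theorem.** `r ≤ m ≤ r * dim_F (D L)`.

* If `D` is commutative and `dim_D (D L) ≤ 1` (all points of `L` are, up to multiples, images of one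
  point under endomorphisms) then `r = m`: the answer to Q1 is positive, for every prime `p`. This is
  the case for all subgroups `L` if `A(ℚ) ⊗ ℚ` has dimension one over `D`. For example, it is true for
  the simple quotients `A_f` of the Jacobians `J_0(N)` with a simple zero of `L(f, s)` at the centre
  (Gross-Zagier, Kolyvagin, Kolyvagin-Logachev), where `n = [D : ℚ]` is arbitrary. For `n = 1` the
  condition says `m ≤ 1`, and this is the known case of the problem. As another consequence, for a
  simple abelian variety of `GL_2`-type (`[D : ℚ] = n`) with `A(ℚ)` infinite, the closure of `A(ℚ)` in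
  `A(ℚ_p)` is open, for every `p` (take `L` of finite index in `D x`, `x` a point of infinite order).
* If `D` is commutative and `dim_D (D L) = 2` then `r ≥ m / 2`. The known general lower bound
  (Waldschmidt) is `m n / (m + 2 n)`, at least `m / 3` for `m ≤ n`.

The data (`SimpleAbelianVariety p n`, in `Pool.Agent.E8helper40.PC.Defs`) are `A(ℚ)`, the compact group
`A(ℚ_p)` with its open subgroup isomorphic to `ℤ_p ^ n` and the logarithm to `Lie A ⊗ ℚ_p = ℚ_p ^ n`,
the action of `D` on `A(ℚ) ⊗ ℚ` and on `Lie A = ℚ ^ n`, and the following fact (`independent`): if
`x_1, …, x_s ∈ A(ℚ)` are linearly independent over `D`, the `n s` coordinates of their logarithms are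
linearly independent over the field of algebraic numbers. This is the theorem of Matev (The p-adic
analytic subgroup theorem and applications, 2010; see also Fuchs-Pham 2015), the p-adic analogue of
Wüstholz' theorem, for the abelian variety `A ^ s` and the point `(x_1, …, x_s)`: if the coordinates
were dependent, this point would have a multiple in a proper abelian subvariety `B` of `A ^ s` over `ℚ`,
and `A` being simple there would be a homomorphism `(δ_1, …, δ_s) ≠ 0` from `A ^ s` to `A` with kernel
containing `B`, so `∑ δ_j x_j` would be a torsion point. All the rest is proved in Lean.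

The proof. Let `μ` be one of `n` independent row vectors, with algebraic coordinates, that are
eigenvectors of all elements of `F` acting on `Lie A`. The functional `x ↦ μ · log x` on `L` is a
combination of the numbers `log_a (x_j)`, `x_j` a basis of `D L` over `D`, with coefficients in a space
of functionals on `L` of dimension at most `f = dim_F (D L)` over the algebraic numbers. If `r` of these
functionals span the others and `r f < m`, an element `z ≠ 0` of `L ⊗ ℚ̄` is killed by all coefficients
of these `r` functionals; so all `n` functionals vanish at `z`, and by linear independence all their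
coefficients vanish at `z`; but they separate the elements of `L ⊗ ℚ̄`.
-/

set_option autoImplicit false

namespace Pool.Agent.Results.MP_52423f_nt.EndomorphismLinesH40

open Module Pool.Agent.E8helper40.PC

/-- `r ≤ m ≤ r * dim_F (D L)` for the rank `m` of `L` and the `ℤ_p`-rank `r` of its closure; and
`r = m` if `D` is commutative and `D L` has dimension at most one. -/
theorem result {p : ℕ} [Fact p.Prime] {n : ℕ} (A : SimpleAbelianVariety p n)
    (L : AddSubgroup A.Pts) (hL : L.FG) :
    (∀ F : Subfield A.End, (∀ x ∈ F, ∀ y ∈ F, x * y = y * x) →
      ∃ r, HasZpRank p (closure A L) r ∧ (∀ r', HasZpRank p (closure A L) r' → r' = r) ∧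
        r ≤ rank A L ∧ rank A L ≤ r * finrank F (endSpan A L)) ∧
    ((∀ x y : A.End, x * y = y * x) → finrank A.End (endSpan A L) ≤ 1 →
      HasZpRank p (closure A L) (rank A L)) := by
  refine ⟨fun F hF => main A F hF L hL, fun hcomm hone => ?_⟩
  obtain ⟨r, hr, -, h1, h2⟩ := main A ⊤ (fun x _ y _ => hcomm x y) L hL
  have h3 : finrank (⊤ : Subfield A.End) A.End = 1 :=
    finrank_eq_one_iff'.2 ⟨1, one_ne_zero, fun w => ⟨⟨w, trivial⟩, mul_one w⟩⟩
  have h4 : finrank (⊤ : Subfield A.End) (endSpan A L) = finrank A.End (endSpan A L) := by
    rw [← Module.finrank_mul_finrank (⊤ : Subfield A.End) A.End (endSpan A L), h3, one_mul]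
  rw [h4] at h2
  have h5 : rank A L ≤ r := h2.trans (by simpa using Nat.mul_le_mul_left r hone)
  rw [le_antisymm h5 h1]
  exact hr

end Pool.Agent.Results.MP_52423f_nt.EndomorphismLinesH40
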