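import Pool.Agent.E8helper40.PF.Main

/-!
# The p-adic closure of a subgroup of a simple abelian variety: primes that do not split in the
endomorphism algebra

Let `A` be a simple abelian variety over `ℚ` of dimension `n`, `D = End⁰(A)` its endomorphism algebra
over `ℚ` (a division algebra), `p` a prime number and `L` a finitely generated subgroup of `A(ℚ)`, of
rank `m`. The question is whether the `ℤ_p`-rank `r` of the closure of `L` in `A(ℚ_p)` is equal to `m`
if `m ≤ n`. The results of this file do not use transcendence theory, nor any other theorem which is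
not proved here: the data (`SimpleAbelianVariety p n`) are `A(ℚ)`, the compact group `A(ℚ_p)` with its
open subgroup isomorphic to `ℤ_p ^ n` and the logarithm, which has a torsion kernel, to
`Lie A ⊗ ℚ_p = ℚ_p ^ n`, and the compatible actions of `D` on `A(ℚ) ⊗ ℚ` and on `Lie A = ℚ ^ n`.

**Theorem.** Let `μ` be a number such that every nonzero cyclic left module of `D ⊗ ℚ_p` has
dimension at least `μ` over `ℚ_p` (if `D` is a field: `μ = min_v [D_v : ℚ_p]`, `v` the primes over
`p`). Let `v` be a nonzero element of `A(ℚ) ⊗ ℚ`. Then

  `dim ((L ⊗ ℚ) ∩ D v) + μ ≤ r + dim D`.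

So the closure of a subgroup of finite index in `D v` has rank at least `μ`. If `D ⊗ ℚ_p` has no zero
divisors (only one prime of `D` over `p`, if `D` is a field) and `D L` has dimension at most one over
`D` then `r = m`: the answer to Q1 is positive. This is the case for all subgroups `L` if
`A(ℚ) ⊗ ℚ` has dimension at most one over `D`; for instance, for the simple factors `A_f` of the
Jacobians `J_0(N)` with a simple zero of `L(f, s)` at the centre (of any dimension `n`) and the primes
`p` with one prime of the field `ℚ(f)` over `p`.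
-/

set_option autoImplicit false

namespace Pool.Agent.Results.MP_52423f_nt.NonsplitPrimesH40

open Module Pool.Agent.E8helper40.PF

/-- `r ≤ m` and `dim ((L ⊗ ℚ) ∩ D v) + μ ≤ r + dim D` for the `ℤ_p`-rank `r` of the closure of `L`, all
`v ≠ 0` and all lower bounds `μ` of the dimensions of the modules `(D ⊗ ℚ_p) / I`; and `r = m` if
`D ⊗ ℚ_p` has no zero divisors and `D L` has dimension at most one. -/
theorem result {p : ℕ} [Fact p.Prime] {n : ℕ} (A : SimpleAbelianVariety p n)
    (L : AddSubgroup A.Pts) (hL : L.FG) :
    (∃ r, Pool.Agent.E8helper40.PC.HasZpRank p (closure A L) r ∧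
      (∀ r', Pool.Agent.E8helper40.PC.HasZpRank p (closure A L) r' → r' = r) ∧ r ≤ rank A L ∧
      ∀ μ : ℕ, ModulesAtLeast A μ → ∀ v, v ≠ 0 → lineRank A L v + μ ≤ r + degree A) ∧
    (Nonsplit A → endDim A L ≤ 1 →
      Pool.Agent.E8helper40.PC.HasZpRank p (closure A L) (rank A L)) := by
  obtain ⟨r, hr⟩ := Pool.Agent.E8helper40.PC.exists_rank (p := p) A.core A.core_open A.coreEquiv
    (closure A L) (AddSubgroup.isClosed_topologicalClosure _)
  have hr1 := rank_closure A L hr
  have hle : r ≤ rank A L := by
    rw [hr1]
    exact logSpan_le A L hL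
  refine ⟨⟨r, hr, fun r' hr' => by rw [rank_closure A L hr', hr1], hle, fun μ hμ v hv =>
    line_bound A L hL hμ hv hr⟩, fun hdom hone => ?_⟩
  by_cases h0 : rank A L = 0
  · rw [h0]
    rw [h0, Nat.le_zero] at hle
    rw [← hle]
    exact hr
  · obtain ⟨v, hv, hsub⟩ := exists_line A L hL hone h0
    have h1 := line_bound A L hL (mu_of_domain A hdom) hv hr
    rw [inf_eq_left.2 hsub, finrank_ratSpan A L hL] at h1
    have h2 : r = rank A L := by omega
    rw [← h2]
    exact hr

end Pool.Agent.Results.MP_52423f_nt.NonsplitPrimesH40
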