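import Pool.Agent.E8helper14.PZ.Main

/-!
# The `p`-adic closures of the subgroups of the Mordell-Weil group of a simple abelian variety: a
zero-one law

Let `A` be a simple abelian variety over `ℚ` of dimension `n`, `D = End⁰(A)` and `p` a prime number.
The question is whether the closure in `A(ℚ_p)` of a subgroup of `A(ℚ)` of rank `m ≤ n` has the
`ℤ_p`-rank `m`. In this file nothing from transcendence theory, nor any other theorem that is not proved
here, is used or assumed (the data are `Pool.Agent.E8helper40.PF.SimpleAbelianVariety`).

**Theorem.** Let `e_1, …, e_N ∈ A(ℚ)` generate a subgroup with torsion quotient, and let `ρ` be the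
`ℤ_p`-rank of the closure of `A(ℚ)`. We consider the groups generated by `m` points
`x_i = ∑_j k_ij e_j + t_i`, `k_ij` integers, `|k_ij| ≤ H`, and `t_i` torsion points.

* If `m ≤ ρ`, then for all but a proportion of at most `m (2 H + 1) ^ (- (ρ + 1 - m))` of the matrices
`k` the closure of this group is isomorphic to `ℤ_p ^ m` modulo finite torsion, for all `t_i`.
* If `m > ρ` this is so for no matrix `k`; the rank of the closure of a subgroup is at most `ρ`.
* If `A(ℚ)` is infinite, then `ρ ≥ μ` for each number `μ` such that every nonzero cyclic module of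
`D ⊗ ℚ_p` has dimension at least `μ` over `ℚ_p` (if `D` is a field: `μ = min_v [D_v : ℚ_p]`, over the
primes `v` above `p`). If `D ⊗ ℚ_p` has no zero divisors then `ρ ≥ [D : ℚ]`.

So for each `m ≤ n` the answer of Q1 is yes for almost all groups with `m` generators, if there is one
such group of rank `m` for which it is yes; and this is the case for all `m ≤ n` if and only if the
closure of `A(ℚ)` has the maximal rank `n`. It is the case, for example, for the abelian varieties of
`GL_2`-type with infinitely many rational points (`D` a field of degree `n`, for instance the simple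
quotients of positive rank of the Jacobians `J_0(N)`) and the primes `p` with only one prime of `D` above
`p`. For these varieties `AlmostAllTuplesH14` has all primes `p` and a better exponent, but it uses the
p-adic analytic subgroup theorem.
-/

set_option autoImplicit false

namespace Pool.Agent.Results.MP_52423f_nt.ZeroOneLawH14

open Module Pool.Agent.E8helper40.PF Pool.Agent.E8helper14.PZ

/-- **The zero-one law.** The closure of `A(ℚ)` in `A(ℚ_p)` has a unique `ℤ_p`-rank `ρ`. For `m ≤ ρ`
almost all `m`-tuples of points are good, and the rank of the closure of every subgroup is at most `ρ`.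
If `A(ℚ)` is infinite then `ρ ≥ μ` for all
lower bounds `μ` of the dimensions of the modules `(D ⊗ ℚ_p) / I`, and almost all `m`-tuples are good
for all `m ≤ [D : ℚ]`, if `D ⊗ ℚ_p` has no zero divisors. -/
theorem result {p : ℕ} [Fact p.Prime] {n : ℕ} (A : SimpleAbelianVariety p n) {N : ℕ}
    (e : Fin N → A.Pts) (hg : Generates A e) :
    (∃ ρ, ClosureRank A ρ ∧ (∀ ρ', ClosureRank A ρ' → ρ' = ρ) ∧ AlmostAll A e ρ ∧
      NoneAbove A ρ ∧
      (InfinitelyManyPoints A → ∀ μ : ℕ, ModulesAtLeast A μ → μ ≤ ρ)) ∧
    (InfinitelyManyPoints A → Nonsplit A → AlmostAll A e (degree A)) := by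
  have hρ : ClosureRank A (finrank ℚ_[p] (logSpan A ⊤)) := hasZpRank_logSpan A ⊤
  have hlaw := zero_one A e hg hρ
  refine ⟨⟨_, hρ, fun ρ' h => rank_closure A ⊤ h, hlaw.1, hlaw.2, fun hinf μ hμ => ?_⟩,
    fun hinf hdom => ?_⟩
  · obtain ⟨v, hv⟩ := exists_ne_zero A hinf
    exact mu_le A e hg hv hμ hρ
  · obtain ⟨v, hv⟩ := exists_ne_zero A hinf
    exact AlmostAll.mono A hlaw.1 (mu_le A e hg hv (mu_of_domain A hdom) hρ)

end Pool.Agent.Results.MP_52423f_nt.ZeroOneLawH14
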